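import Pool.Agent.V8H55.CS.FinS

/-!
# Packings by translates and reflected translates: counting the members in a ball
-/

namespace Pool.Agent.V8H55.CT

open MeasureTheory Set Filter Topology
open scoped ENNReal
open Pool.Agent.H349R2.Tet (V Bl tr bl_add bl_neg bl_measurable bl_subset_ball)
open Pool.Agent.TH219.DL
open Pool.Agent.V8H55.MD
open Pool.Agent.V8H55.CP

/-- change of sign if `s = true` -/
def sg (s : Bool) (y : V) : V := if s = true then -y else y

theorem sg_false (y : V) : sg false y = y := by simp [sg]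

theorem sg_true (y : V) : sg true y = -y := by simp [sg]

theorem sg_sg (s : Bool) (y : V) : sg s (sg s y) = y := by
  cases s <;> simp [sg]

theorem sg_bl {s : Bool} {y : V} {r : ℝ} (h : y ∈ Bl r) : sg s y ∈ Bl r := by
  cases s
  · rw [sg_false]; exact h
  · rw [sg_true]; exact bl_neg h

theorem sg_sub (s : Bool) (y z : V) : sg s y - sg s z = sg s (y - z) := by
  cases s
  · simp only [sg_false]
  · simp only [sg_true]; abel

theorem mem_iff (A : Set V) (p : Bool × V) (X : V) : X ∈ mem A p ↔ sg p.1 (X - p.2) ∈ A := by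
  obtain ⟨s, c⟩ := p
  unfold mem
  cases s
  · simp only [sg_false]
    constructor
    · rintro ⟨x, hx, rfl⟩
      simpa using hx
    · intro h
      exact ⟨_, h, by simp⟩
  · simp only [sg_true]
    constructor
    · rintro ⟨x, hx, rfl⟩
      simpa using hx
    · intro h
      exact ⟨_, h, by simp⟩

theorem mem_int_iff (A : Set V) (p : Bool × V) (X : V) :
    X ∈ interior (mem A p) ↔ sg p.1 (X - p.2) ∈ interior A := by
  rw [interior_mem, mem_iff]

theorem mem_bl {A : Set V} {D : ℝ} (h : A ⊆ Bl D) {p : Bool × V} {X : V} (hX : X ∈ mem A p) :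
    X - p.2 ∈ Bl D := by
  have h1 := sg_bl (s := p.1) (h ((mem_iff A p X).1 hX))
  rwa [sg_sg] at h1

theorem bl_mono {r s : ℝ} (hr : 0 ≤ r) (h : r ≤ s) : Bl r ⊆ Bl s := by
  intro x hx
  simp only [Bl, Set.mem_setOf_eq] at *
  nlinarith

theorem isPack_mono {A : Set V} {S S' : Set (Bool × V)} (h : S' ⊆ S) (hp : IsPack A S) :
    IsPack A S' := fun p hp' q hq' => hp p (h hp') q (h hq')

theorem isPack_anti {A B : Set V} {S : Set (Bool × V)} (h : A ⊆ B) (hp : IsPack B S) :
    IsPack A S := by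
  intro p hpS q hqS hne
  refine (hp p hpS q hqS hne).mono ?_ ?_
  · intro X hX
    rw [mem_int_iff] at hX ⊢
    exact interior_mono h hX
  · intro X hX
    rw [mem_int_iff] at hX ⊢
    exact interior_mono h hX

/-! ### moving packings -/

/-- the motion that takes the member `P` to `(false, 0)` -/
def mv (P p : Bool × V) : Bool × V := (xor p.1 P.1, sg P.1 (p.2 - P.2))

/-- the motion of the points that belongs to `mv` -/
def mx (P : Bool × V) (X : V) : V := sg P.1 (X - P.2)

theorem mv_self (P : Bool × V) : mv P P = (false, 0) := by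
  obtain ⟨s, c⟩ := P
  unfold mv sg
  cases s <;> simp

theorem mv_inj (P : Bool × V) : Function.Injective (mv P) := by
  rintro ⟨s, c⟩ ⟨t, d⟩ h
  obtain ⟨h1, h2⟩ := Prod.mk.inj h
  have h3 : s = t := by
    revert h1
    cases s <;> cases t <;> cases P.1 <;> simp
  have h4 : c - P.2 = d - P.2 := by
    rw [← sg_sg P.1 (c - P.2), ← sg_sg P.1 (d - P.2)]
    exact congrArg _ h2
  rw [h3, sub_left_inj.1 h4]

theorem mv_mem (A : Set V) (P p : Bool × V) (X : V) :
    mx P X ∈ mem A (mv P p) ↔ X ∈ mem A p := by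
  rw [mem_iff, mem_iff]
  have e : sg (mv P p).1 (mx P X - (mv P p).2) = sg p.1 (X - p.2) := by
    unfold mv mx
    simp only
    rw [sg_sub]
    have e2 : X - P.2 - (p.2 - P.2) = X - p.2 := by abel
    rw [e2]
    unfold sg
    cases p.1 <;> cases P.1 <;> simp
  rw [e]

theorem mv_int (A : Set V) (P p : Bool × V) (X : V) :
    mx P X ∈ interior (mem A (mv P p)) ↔ X ∈ interior (mem A p) := by
  rw [interior_mem, interior_mem]
  exact mv_mem _ P p X

theorem mx_surj (P : Bool × V) (Y : V) : ∃ X, mx P X = Y :=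
  ⟨sg P.1 Y + P.2, by unfold mx; rw [add_sub_cancel_right, sg_sg]⟩

theorem mv_pack {A : Set V} {S : Set (Bool × V)} (P : Bool × V) (hp : IsPack A S) :
    IsPack A (mv P '' S) := by
  rintro _ ⟨p, hpS, rfl⟩ _ ⟨q, hqS, rfl⟩ hne
  have hne' : p ≠ q := fun e => hne (by rw [e])
  have h := hp p hpS q hqS hne'
  rw [Set.disjoint_left] at h ⊢
  intro Y hY1 hY2
  obtain ⟨X, rfl⟩ := mx_surj P Y
  exact h ((mv_int A P p X).1 hY1) ((mv_int A P q X).1 hY2)

/-! ### the number of members of finite packings -/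

/-- `F` is a packing with types in `σ` and centres in the ball `x + Bl r` -/
def Fp (σ : Set Bool) (K : Set V) (x : V) (r : ℝ) (F : Finset (Bool × V)) : Prop :=
  (∀ p ∈ F, p.1 ∈ σ ∧ p.2 - x ∈ Bl r) ∧ IsPack K (F : Set (Bool × V))

theorem vol_mem {K : Set V} (hK : MeasurableSet K) (p : Bool × V) :
    volume (mem K p) = volume K := by
  obtain ⟨s, c⟩ := p
  cases s
  · rw [mem_false, vol_tr]
  · have e : mem K (true, c) = tr (rfl' K c) 0 := by
      rw [← mem_true, add_zero]
    rw [e, vol_tr, vol_rfl hK]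

theorem vol_int_mem {K : Set V} (hK : Body K) (p : Bool × V) :
    volume (interior (mem K p)) = volume K := by
  rw [interior_mem, vol_mem isOpen_interior.measurableSet, vol_int hK.2.1]

theorem card_vol {σ : Set Bool} {K : Set V} (hK : Body K) {D : ℝ} (hD : 0 ≤ D) (hKD : K ⊆ Bl D)
    {r : ℝ} (hr : 0 ≤ r) {F : Finset (Bool × V)} (hF : Fp σ K 0 r F) :
    (F.card : ℝ≥0∞) * volume K ≤ volume (Bl (r + D)) := by
  have h1 : volume (⋃ p ∈ F, interior (mem K p)) = ∑ p ∈ F, volume (interior (mem K p)) := by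
    apply measure_biUnion_finset
    · intro p hp q hq hne
      exact hF.2 p hp q hq hne
    · intro p _
      exact isOpen_interior.measurableSet
  have h2 : ∑ p ∈ F, volume (interior (mem K p)) = (F.card : ℝ≥0∞) * volume K := by
    rw [Finset.sum_congr rfl (fun p _ => vol_int_mem hK p), Finset.sum_const, nsmul_eq_mul]
  rw [← h2, ← h1]
  apply measure_mono
  intro X hX
  rw [Set.mem_iUnion₂] at hX
  obtain ⟨p, hp, hX⟩ := hX
  have h3 := mem_bl hKD (interior_subset hX)
  have h4 := (hF.1 p hp).2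
  rw [sub_zero] at h4
  have h5 := bl_add hr hD h4 h3
  have e : p.2 + (X - p.2) = X := by abel
  rwa [e] at h5

theorem fp_trans {σ : Set Bool} {K : Set V} {x y : V} {r : ℝ} {F : Finset (Bool × V)}
    (hF : Fp σ K x r F) : ∃ G, Fp σ K y r G ∧ G.card = F.card := by
  classical
  set g : Bool × V → Bool × V := fun p => mv (false, x - y) p with hg
  have hinj : Function.Injective g := mv_inj _
  refine ⟨F.image g, ⟨?_, ?_⟩, Finset.card_image_of_injective F hinj⟩
  · intro p hp
    obtain ⟨q, hq, rfl⟩ := Finset.mem_image.1 hp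
    obtain ⟨h1, h2⟩ := hF.1 q hq
    refine ⟨?_, ?_⟩
    · show (xor q.1 false) ∈ σ
      rw [Bool.xor_false]; exact h1
    · show sg false (q.2 - (x - y)) - y ∈ Bl r
      rw [sg_false]
      have e : q.2 - (x - y) - y = q.2 - x := by abel
      rw [e]; exact h2
  · rw [Finset.coe_image]
    exact mv_pack _ hF.2

/-- the maximal number of members of a packing with centres in `Bl r` -/
noncomputable def N (σ : Set Bool) (K : Set V) (r : ℝ) : ℕ :=
  sSup {m | ∃ F, Fp σ K 0 r F ∧ F.card = m}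

theorem N_bdd {σ : Set Bool} {K : Set V} (hK : Body K) (r : ℝ) :
    BddAbove {m | ∃ F, Fp σ K 0 r F ∧ F.card = m} := by
  obtain ⟨D, hD, hKD⟩ := body_bdd hK.1
  obtain ⟨M, hM⟩ := ENNReal.exists_nat_gt (r := volume (Bl (|r| + D)) / volume K)
    (ENNReal.div_lt_top (vol_bl_ne_top (by positivity)) (vol_ne_zero hK)).ne
  refine ⟨M, ?_⟩
  rintro _ ⟨F, hF, rfl⟩
  have hF' : Fp σ K 0 |r| F := by
    refine ⟨fun p hp => ⟨(hF.1 p hp).1, ?_⟩, hF.2⟩
    have := (hF.1 p hp).2
    simp only [Bl, Set.mem_setOf_eq, sq_abs] at this ⊢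
    exact this
  have h1 := card_vol hK hD.le hKD (abs_nonneg r) hF'
  have h2 : (F.card : ℝ≥0∞) ≤ volume (Bl (|r| + D)) / volume K := by
    rwa [ENNReal.le_div_iff_mul_le (Or.inl (vol_ne_zero hK)) (Or.inl (vol_ne_top hK))]
  have h3 := h2.trans hM.le
  exact_mod_cast h3

theorem le_N {σ : Set Bool} {K : Set V} (hK : Body K) {x : V} {r : ℝ} {F : Finset (Bool × V)}
    (hF : Fp σ K x r F) : F.card ≤ N σ K r := by
  obtain ⟨G, hG, e⟩ := fp_trans (y := 0) hF
  rw [← e]
  exact le_csSup (N_bdd hK r) ⟨G, hG, rfl⟩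

theorem exists_N (σ : Set Bool) {K : Set V} (hK : Body K) (x : V) (r : ℝ) :
    ∃ F, Fp σ K x r F ∧ F.card = N σ K r := by
  have h1 : N σ K r ∈ {m | ∃ F, Fp σ K 0 r F ∧ F.card = m} := by
    apply Nat.sSup_mem
    · refine ⟨0, ∅, ⟨?_, ?_⟩, rfl⟩
      · intro p hp
        exact absurd hp (Finset.notMem_empty p)
      · intro p hp
        simp at hp
    · exact N_bdd hK r
  obtain ⟨F, hF, e⟩ := h1
  obtain ⟨G, hG, e'⟩ := fp_trans (y := x) hF
  exact ⟨G, hG, e'.trans e⟩

theorem N_anti {σ : Set Bool} {K K' : Set V} (hK : Body K) (hK' : Body K') (h : K' ⊆ K) (r : ℝ) :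
    N σ K r ≤ N σ K' r := by
  obtain ⟨F, hF, e⟩ := exists_N σ hK 0 r
  rw [← e]
  exact le_N hK' ⟨hF.1, isPack_anti h hF.2⟩

/-- `S` has at least `m` members with centres in `x + Bl s` -/
def Big (m : ℕ) (S : Set (Bool × V)) (x : V) (s : ℝ) : Prop :=
  ∃ F : Finset (Bool × V), m ≤ F.card ∧ ∀ p ∈ F, p ∈ S ∧ p.2 - x ∈ Bl s

theorem Big.le {m k : ℕ} {S : Set (Bool × V)} {x : V} {s : ℝ} (h : Big m S x s) (hk : k ≤ m) :
    Big k S x s := by
  obtain ⟨F, h1, h2⟩ := h
  exact ⟨F, hk.trans h1, h2⟩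

theorem Big.mv {m : ℕ} {S : Set (Bool × V)} {x : V} {s : ℝ} (h : Big m S x s) (P : Bool × V) :
    Big m (CT.mv P '' S) (mx P x) s := by
  classical
  obtain ⟨F, h1, h2⟩ := h
  refine ⟨F.image (CT.mv P), ?_, ?_⟩
  · rw [Finset.card_image_of_injective F (mv_inj P)]; exact h1
  · intro p hp
    obtain ⟨q, hq, rfl⟩ := Finset.mem_image.1 hp
    obtain ⟨h3, h4⟩ := h2 q hq
    refine ⟨⟨q, h3, rfl⟩, ?_⟩
    show sg P.1 (q.2 - P.2) - sg P.1 (x - P.2) ∈ Bl s
    rw [sg_sub]
    have e : q.2 - P.2 - (x - P.2) = q.2 - x := by abel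
    rw [e]
    exact sg_bl h4

/-- **optimal packings are dense in all balls** -/
theorem opt_local {σ : Set Bool} {K : Set V} (hK : Body K) {D : ℝ} (hD : 0 ≤ D) (hKD : K ⊆ Bl D)
    {z : V} {r : ℝ} {F : Finset (Bool × V)} (hF : Fp σ K z r F) (hc : F.card = N σ K r)
    {x : V} {s : ℝ} (hs : 0 ≤ s) (hsub : ∀ y, y - x ∈ Bl (s + 2 * D) → y - z ∈ Bl r) :
    Big (N σ K s) (F : Set (Bool × V)) x (s + 2 * D) := by
  classical
  obtain ⟨G, hG, hGc⟩ := exists_N σ hK x s
  set A := F.filter (fun p => p.2 - x ∈ Bl (s + 2 * D)) with hA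
  set B := F.filter (fun p => ¬ p.2 - x ∈ Bl (s + 2 * D)) with hB
  have hAB : A.card + B.card = F.card := Finset.card_filter_add_card_filter_not _
  have hG' : ∀ p ∈ G, p.2 - x ∈ Bl (s + 2 * D) := fun p hp =>
    bl_mono hs (by linarith) (hG.1 p hp).2
  have hd : Disjoint B G := by
    rw [Finset.disjoint_left]
    intro p hp hpG
    exact (Finset.mem_filter.1 hp).2 (hG' p hpG)
  have hcross : ∀ p ∈ B, ∀ q ∈ G, Disjoint (interior (mem K p)) (interior (mem K q)) := by
    intro p hp q hq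
    rw [Set.disjoint_left]
    intro X hX1 hX2
    apply (Finset.mem_filter.1 hp).2
    have h1 := mem_bl hKD (interior_subset hX1)
    have h2 := mem_bl hKD (interior_subset hX2)
    have h3 := bl_add (by linarith) hD (bl_add hs hD (hG.1 q hq).2 h2) (bl_neg h1)
    have e : q.2 - x + (X - q.2) + -(X - p.2) = p.2 - x := by abel
    have e2 : s + D + D = s + 2 * D := by ring
    rwa [e, e2] at h3
  have hFp : Fp σ K z r (B ∪ G) := by
    refine ⟨?_, ?_⟩
    · intro p hp
      rcases Finset.mem_union.1 hp with h | h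
      · exact hF.1 p (Finset.mem_filter.1 h).1
      · exact ⟨(hG.1 p h).1, hsub _ (hG' p h)⟩
    · intro p hp q hq hne
      rcases Finset.mem_union.1 (Finset.mem_coe.1 hp) with h | h <;>
        rcases Finset.mem_union.1 (Finset.mem_coe.1 hq) with h' | h'
      · exact hF.2 p (Finset.mem_filter.1 h).1 q (Finset.mem_filter.1 h').1 hne
      · exact hcross p h q h'
      · exact (hcross q h' p h).symm
      · exact hG.2 p h q h' hne
  have h1 := le_N hK hFp
  rw [Finset.card_union_of_disjoint hd] at h1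
  refine ⟨A, by omega, ?_⟩
  intro p hp
  exact ⟨(Finset.mem_filter.1 hp).1, (Finset.mem_filter.1 hp).2⟩

end Pool.Agent.V8H55.CT
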