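import Pool.Agent.V8H55.CT.Lim

/-!
# Density and counting; uniformly densest packings
-/

namespace Pool.Agent.V8H55.CT

open MeasureTheory Set Filter Topology
open scoped ENNReal
open Pool.Agent.H349R2.Tet (V Bl tr bl_add bl_neg bl_measurable bl_subset_ball)
open Pool.Agent.TH219.DL
open Pool.Agent.V8H55.MD
open Pool.Agent.V8H55.CP

/-- the supremum of the densities of the packings by the members with types in `σ` -/
noncomputable def dX (σ : Set Bool) (K : Set (Fin 3 → ℝ)) : ℝ≥0∞ :=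
  ⨆ (S : Set (Bool × (Fin 3 → ℝ))) (_ : (∀ p ∈ S, p.1 ∈ σ) ∧ IsPack K S), den K S

theorem dX_false (K : Set V) : dX {false} K = dT K := rfl

theorem dX_univ (K : Set V) : dX Set.univ K = dTs K := by
  unfold dX dTs
  apply iSup_congr
  intro S
  exact iSup_congr_Prop ⟨fun h => h.2, fun h => ⟨fun p _ => Set.mem_univ _, h⟩⟩ fun _ => rfl

theorem dT_le_dX {σ : Set Bool} (hσ : false ∈ σ) (K : Set V) : dT K ≤ dX σ K := by
  unfold dT
  refine iSup₂_le fun S hS => ?_
  exact le_iSup₂_of_le (f := fun (S : Set (Bool × V)) (_ : (∀ p ∈ S, p.1 ∈ σ) ∧ IsPack K S) =>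
    den K S) S ⟨fun p hp => by rw [hS.1 p hp]; exact hσ, hS.2⟩ le_rfl

theorem dX_le_dTs (σ : Set Bool) (K : Set V) : dX σ K ≤ dTs K := by
  unfold dX
  refine iSup₂_le fun S hS => ?_
  exact le_iSup₂_of_le S hS.2 le_rfl

theorem dX_ne_top (σ : Set Bool) {K : Set V} (hK : Body K) : dX σ K ≠ ∞ := by
  refine ne_top_of_le_ne_top ?_ ((dX_le_dTs σ K).trans (Pool.Agent.N791.RU.dTs_le K))
  exact ENNReal.mul_ne_top (by norm_num) (dT_ne_top hK)

theorem dX_ne_zero {σ : Set Bool} (hσ : false ∈ σ) {K : Set V} (hK : Body K) : dX σ K ≠ 0 := by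
  intro h
  have h1 := dT_le_dX hσ K
  rw [h] at h1
  exact dT_pos hK (le_antisymm h1 bot_le)

/-- limits superior are not changed by shifts of the radius -/
theorem shift_le (g : ℝ → ℝ≥0∞) (c : ℝ) :
    limsup (fun r : ℝ => g (r + c) / volume (Bl r)) atTop ≤
      limsup (fun r : ℝ => g r / volume (Bl r)) atTop := by
  set f : ℝ → ℝ≥0∞ := fun r => g r / volume (Bl r) with hf
  have hmono : limsup (fun r : ℝ => f (r + c)) atTop ≤ limsup f atTop := by
    have e : limsup (fun r : ℝ => f (r + c)) atTop = limsup f (map (fun r : ℝ => r + c) atTop) := rfl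
    rw [e]
    exact limsup_le_limsup_of_le (tendsto_atTop_add_const_right _ _ tendsto_id)
  have hstep : limsup (fun r : ℝ => g (r + c) / volume (Bl r)) atTop ≤
      limsup (fun r : ℝ => f (r + c) * ENNReal.ofReal (((r + c) / r) ^ 3)) atTop := by
    apply limsup_le_limsup
    · filter_upwards [eventually_gt_atTop 0, eventually_gt_atTop (-c)] with r hr hrc
      have hrc' : 0 < r + c := by linarith
      have h1 : volume (Bl (r + c)) / volume (Bl r) = ENNReal.ofReal (((r + c) / r) ^ 3) := by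
        rw [Pool.Agent.H349R2.Tet.vol_bl hr, Pool.Agent.H349R2.Tet.vol_bl hrc', div_pow,
          ENNReal.ofReal_div_of_pos (by positivity)]
        rw [ENNReal.mul_div_mul_right _ _ Pool.Agent.H349R2.Tet.vol_bl_one_pos.ne'
          Pool.Agent.H349R2.Tet.vol_bl_one_lt_top.ne]
      rw [← h1]
      simp only [hf, ENNReal.div_eq_inv_mul]
      have : (volume (Bl (r + c)))⁻¹ * volume (Bl (r + c)) = 1 :=
        ENNReal.inv_mul_cancel (vol_bl_ne_zero hrc') (vol_bl_ne_top hrc')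
      apply le_of_eq
      calc (volume (Bl r))⁻¹ * g (r + c) = (volume (Bl r))⁻¹ * g (r + c) * 1 := by rw [mul_one]
        _ = (volume (Bl r))⁻¹ * g (r + c) *
            ((volume (Bl (r + c)))⁻¹ * volume (Bl (r + c))) := by rw [this]
        _ = _ := by ring
    · exact isCobounded_le_of_bot
    · exact isBounded_le_of_top
  refine hstep.trans ?_
  have hone := (ratio_tendsto c).limsup_eq
  refine le_trans (ENNReal.limsup_mul_le' (Or.inr ?_) (Or.inr ?_)) ?_
  · rw [hone]; exact ENNReal.one_ne_top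
  · rw [hone]; exact one_ne_zero
  · rw [hone, mul_one]
    exact hmono

/-- the upper number density of optimal packings -/
noncomputable def nu (σ : Set Bool) (K : Set V) : ℝ≥0∞ :=
  limsup (fun r : ℝ => (N σ K r : ℝ≥0∞) / volume (Bl r)) atTop

theorem sum_le {σ : Set Bool} {K : Set V} (hK : Body K) {D : ℝ} (hD : 0 ≤ D) (hKD : K ⊆ Bl D)
    {S : Set (Bool × V)} (hσ : ∀ p ∈ S, p.1 ∈ σ) (hS : IsPack K S) {r : ℝ} (hr : 0 ≤ r) :
    ∑' p : S, volume (mem K p.1 ∩ Bl r) ≤ (N σ K (r + D) : ℝ≥0∞) * volume K := by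
  classical
  rw [ENNReal.tsum_eq_iSup_sum]
  refine iSup_le fun t => ?_
  set G : Finset (Bool × V) := (t.map (Function.Embedding.subtype _)).filter
    (fun p => p.2 ∈ Bl (r + D)) with hG
  have hGS : ∀ p ∈ G, p ∈ S := by
    intro p hp
    obtain ⟨q, -, rfl⟩ := Finset.mem_map.1 (Finset.mem_filter.1 hp).1
    exact q.2
  have h1 : G.card ≤ N σ K (r + D) := by
    apply le_N hK (x := 0)
    refine ⟨fun p hp => ⟨hσ p (hGS p hp), ?_⟩, fun p hp q hq => hS p (hGS p hp) q (hGS q hq)⟩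
    rw [sub_zero]
    exact (Finset.mem_filter.1 hp).2
  have h2 : ∑ p ∈ t, volume (mem K p.1 ∩ Bl r) =
      ∑ p ∈ t.map (Function.Embedding.subtype _), volume (mem K p ∩ Bl r) := by
    rw [Finset.sum_map]
    rfl
  have h3 : ∑ p ∈ t.map (Function.Embedding.subtype _), volume (mem K p ∩ Bl r) ≤
      ∑ p ∈ G, volume K := by
    rw [hG, Finset.sum_filter]
    apply Finset.sum_le_sum
    intro p _
    split_ifs with h
    · exact (measure_mono Set.inter_subset_left).trans (vol_mem hK.1.measurableSet p).le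
    · have he : mem K p ∩ Bl r = ∅ := by
        rw [Set.eq_empty_iff_forall_notMem]
        rintro X ⟨hX, hXr⟩
        apply h
        have h4 := bl_add hr hD hXr (bl_neg (mem_bl hKD hX))
        have e : X + -(X - p.2) = p.2 := by abel
        rwa [e] at h4
      rw [he, measure_empty]
  rw [h2]
  refine h3.trans ?_
  rw [Finset.sum_const, nsmul_eq_mul]
  gcongr

theorem big_le_sum {K : Set V} (hK : Body K) {D : ℝ} (hD : 0 ≤ D) (hKD : K ⊆ Bl D)
    {S : Set (Bool × V)} {r : ℝ} (hr : 0 ≤ r) {m : ℕ} (hb : Big m S 0 r) :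
    (m : ℝ≥0∞) * volume K ≤ ∑' p : S, volume (mem K p.1 ∩ Bl (r + D)) := by
  classical
  obtain ⟨F, h1, h2⟩ := hb
  have hF : ∀ p ∈ F, p ∈ S := fun p hp => (h2 p hp).1
  set t : Finset S := F.subtype (fun p => p ∈ S) with ht
  have hmap : t.map (Function.Embedding.subtype _) = F := by
    rw [ht, Finset.subtype_map]
    exact Finset.filter_true_of_mem hF
  calc (m : ℝ≥0∞) * volume K ≤ (F.card : ℝ≥0∞) * volume K := by gcongr
    _ = ∑ p ∈ F, volume (mem K p ∩ Bl (r + D)) := by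
        rw [← nsmul_eq_mul, ← Finset.sum_const]
        apply Finset.sum_congr rfl
        intro p hp
        have hsub : mem K p ⊆ Bl (r + D) := by
          intro X hX
          have h3 := (h2 p hp).2
          rw [sub_zero] at h3
          have h4 := bl_add hr hD h3 (mem_bl hKD hX)
          have e : p.2 + (X - p.2) = X := by abel
          rwa [e] at h4
        rw [Set.inter_eq_left.2 hsub, vol_mem hK.1.measurableSet]
    _ = ∑ p ∈ t, volume (mem K p.1 ∩ Bl (r + D)) := by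
        conv_lhs => rw [← hmap]
        rw [Finset.sum_map]
        rfl
    _ ≤ _ := ENNReal.sum_le_tsum t

theorem dX_le_nu (σ : Set Bool) {K : Set V} (hK : Body K) : dX σ K ≤ volume K * nu σ K := by
  obtain ⟨D, hD, hKD⟩ := body_bdd hK.1
  unfold dX
  refine iSup₂_le fun S hS => ?_
  have h1 : den K S ≤ limsup (fun r : ℝ => volume K * ((N σ K (r + D) : ℝ≥0∞) / volume (Bl r)))
      atTop := by
    unfold den
    apply limsup_le_limsup
    · filter_upwards [eventually_gt_atTop 0] with r hr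
      rw [← mul_div_assoc]
      apply ENNReal.div_le_div_right
      rw [mul_comm]
      exact sum_le hK hD.le hKD hS.1 hS.2 hr.le
    · exact isCobounded_le_of_bot
    · exact isBounded_le_of_top
  refine h1.trans ?_
  rw [ENNReal.limsup_const_mul_of_ne_top (vol_ne_top hK)]
  exact mul_le_mul_right (shift_le (fun r => (N σ K r : ℝ≥0∞)) D) _

theorem nu_le_den {σ : Set Bool} {K : Set V} (hK : Body K) {S : Set (Bool × V)} {c : ℝ}
    (hb : ∀ r : ℝ, 0 ≤ r → Big (N σ K r) S 0 (r + c)) : volume K * nu σ K ≤ den K S := by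
  obtain ⟨D, hD, hKD⟩ := body_bdd hK.1
  have hg : ∀ g : ℝ → ℝ≥0∞, limsup (fun r : ℝ => g r / volume (Bl r)) atTop ≤
      limsup (fun r : ℝ => g (r + -(c + D)) / volume (Bl r)) atTop := by
    intro g
    have h1 := shift_le (fun r => g (r + -(c + D))) (c + D)
    simp only [add_neg_cancel_right] at h1
    exact h1
  unfold nu
  refine (mul_le_mul_right (hg _) _).trans ?_
  rw [← ENNReal.limsup_const_mul_of_ne_top (vol_ne_top hK)]
  unfold den
  apply limsup_le_limsup
  · filter_upwards [eventually_gt_atTop (c + D), eventually_gt_atTop D] with r hr hrD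
    rw [← mul_div_assoc]
    apply ENNReal.div_le_div_right
    have h1 := big_le_sum hK hD.le hKD (r := r - D) (by linarith) (hb (r + -(c + D)) (by linarith)
      |> fun h => by
        have e : r + -(c + D) + c = r - D := by ring
        rwa [e] at h)
    rw [sub_add_cancel] at h1
    rw [mul_comm]
    exact h1
  · exact isCobounded_le_of_bot
  · exact isBounded_le_of_top

/-- the packing `S` of `K` (with types in `σ`) is uniformly densest: every ball of radius `r + 2D`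
contains the centres of at least as many members of `S` as any ball of radius `r` contains centres
of members of any other such packing; here `K` is contained in the ball of radius `D` around 0 -/
def UD (σ : Set Bool) (K : Set (Fin 3 → ℝ)) (S : Set (Bool × (Fin 3 → ℝ))) : Prop :=
  (∀ p ∈ S, p.1 ∈ σ) ∧ IsPack K S ∧ ∀ D : ℝ, 0 ≤ D → K ⊆ Bl D →
    ∀ S' : Set (Bool × (Fin 3 → ℝ)), (∀ p ∈ S', p.1 ∈ σ) → IsPack K S' →
      ∀ (x y : Fin 3 → ℝ) (r : ℝ), 0 ≤ r →
        {p | p ∈ S' ∧ p.2 - y ∈ Bl r}.encard ≤ {p | p ∈ S ∧ p.2 - x ∈ Bl (r + 2 * D)}.encard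

theorem big_encard {m : ℕ} {S : Set (Bool × V)} {x : V} {s : ℝ} (h : Big m S x s) :
    (m : ℕ∞) ≤ {p | p ∈ S ∧ p.2 - x ∈ Bl s}.encard := by
  obtain ⟨F, h1, h2⟩ := h
  have h3 : (F : Set (Bool × V)) ⊆ {p | p ∈ S ∧ p.2 - x ∈ Bl s} := fun p hp => h2 p hp
  refine le_trans ?_ (Set.encard_le_encard h3)
  rw [Set.encard_coe_eq_coe_finsetCard]
  exact_mod_cast h1

theorem encard_big {m : ℕ} {S : Set (Bool × V)} {x : V} {s : ℝ}
    (h : (m : ℕ∞) ≤ {p | p ∈ S ∧ p.2 - x ∈ Bl s}.encard) : Big m S x s := by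
  obtain ⟨t, ht, hc⟩ := Set.exists_subset_encard_eq h
  have hf : t.Finite := Set.finite_of_encard_eq_coe hc
  refine ⟨hf.toFinset, ?_, ?_⟩
  · rw [hf.encard_eq_coe_toFinset_card] at hc
    exact_mod_cast hc.ge
  · intro p hp
    exact ht (hf.mem_toFinset.1 hp)

theorem encard_le_N {σ : Set Bool} {K : Set V} (hK : Body K) {S : Set (Bool × V)}
    (hσ : ∀ p ∈ S, p.1 ∈ σ) (hS : IsPack K S) (y : V) (r : ℝ) :
    {p | p ∈ S ∧ p.2 - y ∈ Bl r}.encard ≤ (N σ K r : ℕ∞) := by
  by_contra hcon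
  push Not at hcon
  have h1 : ((N σ K r + 1 : ℕ) : ℕ∞) ≤ {p | p ∈ S ∧ p.2 - y ∈ Bl r}.encard := by
    push_cast
    exact Order.add_one_le_of_lt hcon
  obtain ⟨F, h2, h3⟩ := encard_big h1
  have h4 : F.card ≤ N σ K r :=
    le_N hK (x := y) ⟨fun p hp => ⟨hσ p (h3 p hp).1, (h3 p hp).2⟩,
      fun p hp q hq => hS p (h3 p hp).1 q (h3 q hq).1⟩
  omega

theorem ud_of {σ : Set Bool} {K : Set V} (hK : Body K) {S : Set (Bool × V)}
    (hσ : ∀ p ∈ S, p.1 ∈ σ) (hS : IsPack K S)
    (hb : ∀ D : ℝ, 0 ≤ D → K ⊆ Bl D → ∀ (x : V) (r : ℝ), 0 ≤ r →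
      Big (N σ K r) S x (r + 2 * D)) : UD σ K S :=
  ⟨hσ, hS, fun D hD hKD _ hσ' hS' x y r hr =>
    (encard_le_N hK hσ' hS' y r).trans (big_encard (hb D hD hKD x r hr))⟩

theorem big_of_ud {σ : Set Bool} {K : Set V} (hK : Body K) {S : Set (Bool × V)} (h : UD σ K S)
    {D : ℝ} (hD : 0 ≤ D) (hKD : K ⊆ Bl D) (x : V) {r : ℝ} (hr : 0 ≤ r) :
    Big (N σ K r) S x (r + 2 * D) := by
  obtain ⟨F, hF, hc⟩ := exists_N σ hK 0 r
  have h1 := h.2.2 D hD hKD (F : Set (Bool × V)) (fun p hp => (hF.1 p hp).1) hF.2 x 0 r hr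
  apply encard_big
  refine le_trans ?_ h1
  rw [← hc, ← Set.encard_coe_eq_coe_finsetCard]
  apply Set.encard_le_encard
  intro p hp
  exact ⟨hp, (hF.1 p hp).2⟩

/-- uniformly densest packings have the greatest density -/
theorem ud_den {σ : Set Bool} {K : Set V} (hK : Body K) {S : Set (Bool × V)} (h : UD σ K S) :
    den K S = dX σ K := by
  obtain ⟨D, hD, hKD⟩ := body_bdd hK.1
  apply le_antisymm
  · exact le_iSup₂_of_le (f := fun (S : Set (Bool × V))
      (_ : (∀ p ∈ S, p.1 ∈ σ) ∧ IsPack K S) => den K S) S ⟨h.1, h.2.1⟩ le_rfl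
  · exact (dX_le_nu σ hK).trans (nu_le_den hK (c := 2 * D)
      fun r hr => big_of_ud hK h hD.le hKD 0 hr)

/-- a limit of packings that are dense in large balls is uniformly densest -/
theorem lim_ud {σ : Set Bool} {K : Set V} (hK : Body K) {Kn : ℕ → Set V} {c : V} {ρ : ℝ}
    (hρ : 0 < ρ) (hc : ∀ n, ∀ y, dist y c < ρ → y ∈ interior (Kn n)) (hint : Exh K Kn)
    {S : ℕ → Set (Bool × V)} (hσ : ∀ n, ∀ p ∈ S n, p.1 ∈ σ)
    (hp : ∀ n, IsPack (Kn n) (S n))
    (hb : ∀ D : ℝ, 0 ≤ D → K ⊆ Bl D → ∀ (x : V) (r : ℝ), 0 ≤ r →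
      ∀ᶠ n in atTop, Big (N σ K r) (S n) x (r + 2 * D)) : UD σ K (Lim S) :=
  ud_of hK (lim_class hσ) (lim_pack hint hp) fun D hD hKD x r hr =>
    lim_big hρ hc hp (hb D hD hKD x r hr)

theorem exh_const (K : Set V) : Exh K fun _ => K := by
  intro x hx
  obtain ⟨ε, hε, h1⟩ := Metric.isOpen_iff.1 isOpen_interior x hx
  exact ⟨ε, hε, Eventually.of_forall fun n y hy => h1 hy⟩

/-- **uniformly densest packings exist** -/
theorem exists_ud (σ : Set Bool) {K : Set V} (hK : Body K) : ∃ S, UD σ K S := by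
  obtain ⟨c, hc⟩ := hK.2.2
  obtain ⟨ρ, hρ, hball⟩ := Metric.isOpen_iff.1 isOpen_interior c hc
  choose F hF hFc using fun n : ℕ => exists_N σ hK 0 (n : ℝ)
  refine ⟨_, lim_ud hK hρ (fun _ y hy => hball hy) (exh_const K) (S := fun n =>
    (F n : Set (Bool × V))) (fun n p hp => ((hF n).1 p hp).1) (fun n => (hF n).2) ?_⟩
  intro D hD hKD x r hr
  obtain ⟨R, hR, hxR⟩ : ∃ R : ℝ, 0 < R ∧ x ∈ Bl R := by
    obtain ⟨R, hR, h⟩ := body_bdd (isCompact_singleton (x := x))
    exact ⟨R, hR, h rfl⟩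
  filter_upwards [eventually_ge_atTop ⌈r + 2 * D + R⌉₊] with n hn
  have hn' : r + 2 * D + R ≤ n := (Nat.le_ceil _).trans (by exact_mod_cast hn)
  refine opt_local hK hD hKD (hF n) (hFc n) hr fun y hy => ?_
  have h1 := bl_add (by linarith) hR.le hy hxR
  rw [sub_zero]
  rw [sub_add_cancel] at h1
  exact bl_mono (by linarith) hn' h1

theorem dX_eq (σ : Set Bool) {K : Set V} (hK : Body K) : dX σ K = volume K * nu σ K := by
  apply le_antisymm (dX_le_nu σ hK)
  obtain ⟨D, hD, hKD⟩ := body_bdd hK.1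
  obtain ⟨S, hS⟩ := exists_ud σ hK
  rw [← ud_den hK hS]
  exact nu_le_den hK (c := 2 * D) fun r hr => big_of_ud hK hS hD.le hKD 0 hr

end Pool.Agent.V8H55.CT
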