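import Pool.Agent.V8H55.CT.Dens

/-!
# Optimal packings of smaller bodies have overlaps deep inside
-/

namespace Pool.Agent.V8H55.CT

open MeasureTheory Set Filter Topology
open scoped ENNReal
open Pool.Agent.H349R2.Tet (V Bl tr Ov bl_add bl_neg bl_measurable bl_subset_ball)
open Pool.Agent.TH219.DL
open Pool.Agent.V8H55.MD
open Pool.Agent.V8H55.CP
open Pool.Agent.V8H55.CS (Ow)

theorem gap {σ : Set Bool} (hσ : false ∈ σ) {K K' : Set V} (hK : Body K) (hK' : Body K')
    (hsub : K' ⊆ K) {D : ℝ} (hD : 0 ≤ D) (hKD : K ⊆ Bl D)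
    (hd : dX σ K ≤ dX σ K') (hv : volume K' < volume K) {L : ℝ} (hL : 0 ≤ L) :
    ∃ (R : ℝ) (F : Finset (Bool × V)), L ≤ R ∧ Fp σ K' 0 R F ∧ F.card = N σ K' R ∧
      ∃ p ∈ F, ∃ q ∈ F, p ≠ q ∧ p.2 ∈ Bl (R - L) ∧
        ¬ Disjoint (interior (mem K p)) (interior (mem K q)) := by
  by_contra hcon
  push Not at hcon
  have h1 : ∀ s : ℝ, 0 ≤ s → N σ K' s ≤ N σ K (s + 2 * D) := by
    intro s hs
    obtain ⟨F, hF, hFc⟩ := exists_N σ hK' 0 (s + 2 * D + L)
    obtain ⟨G, hG1, hG2⟩ := opt_local hK' hD (hsub.trans hKD) hF hFc (x := 0) hs (by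
      intro y hy
      exact bl_mono (by linarith) (by linarith) hy)
    refine hG1.trans (le_N hK (x := 0) ⟨fun p hp => ⟨(hF.1 p (hG2 p hp).1).1, (hG2 p hp).2⟩, ?_⟩)
    intro p hp q hq hne
    refine hcon (s + 2 * D + L) F (by linarith) hF hFc p (hG2 p hp).1 q (hG2 q hq).1 hne ?_
    have h2 := (hG2 p hp).2
    rw [sub_zero] at h2
    rw [add_sub_cancel_right]
    exact h2
  have h2 : nu σ K' ≤ nu σ K := by
    refine le_trans ?_ (shift_le (fun r => (N σ K r : ℝ≥0∞)) (2 * D))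
    unfold nu
    apply limsup_le_limsup
    · filter_upwards [eventually_gt_atTop 0] with r hr
      apply ENNReal.div_le_div_right
      exact_mod_cast h1 r hr.le
    · exact isCobounded_le_of_bot
    · exact isBounded_le_of_top
  have h3 : volume K * dX σ K' ≤ volume K' * dX σ K := by
    rw [dX_eq σ hK, dX_eq σ hK']
    calc volume K * (volume K' * nu σ K') = volume K * volume K' * nu σ K' := by ring
      _ ≤ volume K * volume K' * nu σ K := by gcongr
      _ = _ := by ring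
  exact absurd (lt_of_cmp (vol_ne_top hK) (dX_ne_zero hσ hK) (dX_ne_top σ hK) h3 hv)
    (not_lt.2 hd)

/-- overlap of two members, one of them `K` itself -/
theorem not_disj {K : Set V} {q : Bool × V}
    (h : ¬ Disjoint (interior (mem K (false, 0))) (interior (mem K q))) :
    (q.1 = false ∧ Ov K q.2) ∨ (q.1 = true ∧ Ow K q.2) := by
  rw [Set.not_disjoint_iff] at h
  obtain ⟨X, h1, h2⟩ := h
  rw [mem_int_iff] at h1 h2
  simp only [sg_false, sub_zero] at h1
  obtain ⟨s, c⟩ := q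
  cases s
  · left
    simp only [sg_false] at h2
    exact ⟨rfl, X, h1, h2⟩
  · right
    simp only [sg_true, neg_sub] at h2
    exact ⟨rfl, X, h1, h2⟩

theorem disj_of {K : Set V} {q : Bool × V}
    (h : Disjoint (interior (mem K (false, 0))) (interior (mem K q))) :
    (q.1 = false → ¬ Ov K q.2) ∧ (q.1 = true → ¬ Ow K q.2) := by
  rw [Set.disjoint_left] at h
  obtain ⟨s, c⟩ := q
  constructor
  · rintro rfl ⟨X, h1, h2⟩
    apply h (a := X)
    · rw [mem_int_iff]; simpa [sg_false] using h1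
    · rw [mem_int_iff]; simpa [sg_false] using h2
  · rintro rfl ⟨X, h1, h2⟩
    apply h (a := X)
    · rw [mem_int_iff]; simpa [sg_false] using h1
    · rw [mem_int_iff]; simpa [sg_true] using h2

/-- the packings for the smaller body, moved such that the overlap is at `K` -/
theorem moved {σ : Set Bool} (hσ : false ∈ σ) {K K' : Set V} (hK : Body K) (hK' : Body K')
    (hsub : K' ⊆ K) (hd : dX σ K ≤ dX σ K') (hv : volume K' < volume K) (L : ℝ) :
    ∃ (S : Set (Bool × V)) (q : Bool × V), (∀ p ∈ S, p.1 ∈ σ) ∧ IsPack K' S ∧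
      (false, (0 : V)) ∈ S ∧ q ∈ S ∧ q ≠ (false, 0) ∧
      ((q.1 = false ∧ Ov K q.2) ∨ (q.1 = true ∧ Ow K q.2)) ∧
      ∀ D : ℝ, 0 ≤ D → K ⊆ Bl D → ∀ (x : V) (r t : ℝ), 0 ≤ r → 0 ≤ t → x ∈ Bl t →
        r + 2 * D + t ≤ L → Big (N σ K r) S x (r + 2 * D) := by
  classical
  obtain ⟨D0, hD0, hKD0⟩ := body_bdd hK.1
  obtain ⟨R, F, hLR, hF, hFc, p, hp, q, hq, hne, hpR, hov⟩ := gap hσ hK hK' hsub hD0.le hKD0 hd hv
    (L := max L 0) (le_max_right _ _)
  refine ⟨mv p '' (F : Set (Bool × V)), mv p q, ?_, mv_pack p hF.2, ⟨p, hp, mv_self p⟩,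
    ⟨q, hq, rfl⟩, ?_, ?_, ?_⟩
  · rintro _ ⟨r, hr, rfl⟩
    have h1 := (hF.1 r hr).1
    have h2 := (hF.1 p hp).1
    show xor r.1 p.1 ∈ σ
    revert h1 h2
    cases r.1 <;> cases p.1 <;> simp_all
  · rw [← mv_self p]
    exact fun e => hne (mv_inj p e).symm
  · apply not_disj
    rw [Set.not_disjoint_iff] at hov ⊢
    obtain ⟨X, h1, h2⟩ := hov
    rw [← mv_self p]
    exact ⟨mx p X, (mv_int K p p X).2 h1, (mv_int K p q X).2 h2⟩
  · intro D hD hKD x r t hr ht hxt hL
    obtain ⟨x', rfl⟩ := mx_surj p x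
    have h1 : Big (N σ K' r) (F : Set (Bool × V)) x' (r + 2 * D) := by
      refine opt_local hK' hD (hsub.trans hKD) hF hFc hr fun y hy => ?_
      have h2 : x' - p.2 ∈ Bl t := by
        have := sg_bl (s := p.1) hxt
        unfold mx at this
        rwa [sg_sg] at this
      have hRL : 0 ≤ R - max L 0 := by linarith
      have h3 := bl_add (by linarith) ht hy h2
      have h4 := bl_add (by linarith) hRL h3 hpR
      have e : y - x' + (x' - p.2) + p.2 = y - 0 := by abel
      rw [e] at h4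
      refine bl_mono (by linarith) ?_ h4
      have := le_max_left L 0
      linarith
    exact (h1.mv p).le (N_anti hK hK' hsub r)

end Pool.Agent.V8H55.CT
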