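import Pool.Agent.V8H55.CT.Count

/-!
# Limits of packings
-/

namespace Pool.Agent.V8H55.CT

open MeasureTheory Set Filter Topology
open scoped ENNReal
open Pool.Agent.H349R2.Tet (V Bl tr bl_add bl_neg bl_measurable bl_subset_ball)
open Pool.Agent.TH219.DL
open Pool.Agent.V8H55.MD
open Pool.Agent.V8H55.CP

/-- a free ultrafilter on the natural numbers -/
noncomputable def U : Ultrafilter ℕ := hyperfilter ℕ

theorem U_le : (U : Filter ℕ) ≤ atTop := Nat.hyperfilter_le_atTop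

/-- the limit of the sequence `S` of packings -/
def Lim (S : ℕ → Set (Bool × V)) : Set (Bool × V) :=
  {q | ∃ f : ℕ → Bool × V, (∀ᶠ n in (U : Filter ℕ), f n ∈ S n) ∧ Tendsto f (U : Filter ℕ) (𝓝 q)}

theorem fst_ev {f : ℕ → Bool × V} {q : Bool × V} (h : Tendsto f (U : Filter ℕ) (𝓝 q)) :
    ∀ᶠ n in (U : Filter ℕ), (f n).1 = q.1 := by
  have h1 : Tendsto (fun n => (f n).1) (U : Filter ℕ) (𝓝 q.1) := (continuous_fst.tendsto q).comp h
  rw [nhds_discrete, tendsto_pure] at h1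
  exact h1

theorem snd_lim {f : ℕ → Bool × V} {q : Bool × V} (h : Tendsto f (U : Filter ℕ) (𝓝 q)) :
    Tendsto (fun n => (f n).2) (U : Filter ℕ) (𝓝 q.2) := (continuous_snd.tendsto q).comp h

theorem sg_cont (s : Bool) : Continuous (sg s) := by
  cases s
  · have : sg false = fun y => y := by funext y; exact sg_false y
    rw [this]; exact continuous_id
  · have : sg true = fun y => -y := by funext y; exact sg_true y
    rw [this]; exact continuous_neg

theorem pt_lim {f : ℕ → Bool × V} {q : Bool × V} (h : Tendsto f (U : Filter ℕ) (𝓝 q)) (X : V) :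
    Tendsto (fun n => sg (f n).1 (X - (f n).2)) (U : Filter ℕ) (𝓝 (sg q.1 (X - q.2))) := by
  have h1 : Tendsto (fun n => sg q.1 (X - (f n).2)) (U : Filter ℕ) (𝓝 (sg q.1 (X - q.2))) :=
    ((sg_cont q.1).tendsto _).comp ((snd_lim h).const_sub X)
  refine h1.congr' ?_
  filter_upwards [fst_ev h] with n hn
  rw [hn]

/-- the bodies `Kn` exhaust the interior of `K` -/
def Exh (K : Set V) (Kn : ℕ → Set V) : Prop :=
  ∀ x ∈ interior K, ∃ ε : ℝ, 0 < ε ∧ ∀ᶠ n in atTop, ∀ y, dist y x < ε → y ∈ interior (Kn n)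

theorem lim_pack {K : Set V} {Kn : ℕ → Set V} {S : ℕ → Set (Bool × V)} (hint : Exh K Kn)
    (hp : ∀ n, IsPack (Kn n) (S n)) : IsPack K (Lim S) := by
  rintro p ⟨f, hfS, hf⟩ q ⟨g, hgS, hg⟩ hne
  rw [Set.disjoint_left]
  intro X hX1 hX2
  rw [mem_int_iff] at hX1 hX2
  obtain ⟨ε1, hε1, h1⟩ := hint _ hX1
  obtain ⟨ε2, hε2, h2⟩ := hint _ hX2
  obtain ⟨O1, O2, hO1, hO2, hp1, hq2, hd⟩ := t2_separation hne
  have e1 : ∀ᶠ n in (U : Filter ℕ), f n ∈ O1 := hf (hO1.mem_nhds hp1)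
  have e2 : ∀ᶠ n in (U : Filter ℕ), g n ∈ O2 := hg (hO2.mem_nhds hq2)
  have e3 := (Metric.tendsto_nhds.1 (pt_lim hf X)) ε1 hε1
  have e4 := (Metric.tendsto_nhds.1 (pt_lim hg X)) ε2 hε2
  obtain ⟨n, n1, n2, n3, n4, n5, n6, n7, n8⟩ := (hfS.and (hgS.and (e1.and (e2.and (e3.and (e4.and
    ((h1.filter_mono U_le).and (h2.filter_mono U_le)))))))).exists
  have hne' : f n ≠ g n := fun e => Set.disjoint_left.1 hd n3 (e ▸ n4)
  have h3 := hp n (f n) n1 (g n) n2 hne'
  rw [Set.disjoint_left] at h3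
  exact h3 ((mem_int_iff _ _ X).2 (n7 _ n5)) ((mem_int_iff _ _ X).2 (n8 _ n6))

theorem lim_class {σ : Set Bool} {S : ℕ → Set (Bool × V)} (h : ∀ n, ∀ p ∈ S n, p.1 ∈ σ) :
    ∀ p ∈ Lim S, p.1 ∈ σ := by
  rintro p ⟨f, hfS, hf⟩
  obtain ⟨n, n1, n2⟩ := (hfS.and (fst_ev hf)).exists
  rw [← n2]
  exact h n _ n1

theorem lim_mem {S : ℕ → Set (Bool × V)} {f : ℕ → Bool × V} {q : Bool × V}
    (h : ∀ n, f n ∈ S n) (hf : Tendsto f atTop (𝓝 q)) : q ∈ Lim S :=
  ⟨f, Eventually.of_forall h, hf.mono_left U_le⟩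

/-- different members of the same type are separated -/
theorem sep {A : Set V} {c : V} {ρ : ℝ} (hρ : 0 < ρ) (hc : ∀ y, dist y c < ρ → y ∈ interior A)
    {S : Set (Bool × V)} (hS : IsPack A S) {p q : Bool × V} (hp : p ∈ S) (hq : q ∈ S)
    (hne : p ≠ q) (h1 : p.1 = q.1) : ρ ≤ dist p.2 q.2 := by
  by_contra hcon
  push Not at hcon
  have h := hS p hp q hq hne
  rw [Set.disjoint_left] at h
  have hX : ∀ r : Bool × V, r.1 = p.1 → dist p.2 r.2 < ρ →
      sg p.1 c + p.2 ∈ interior (mem A r) := by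
    intro r hr hd
    rw [mem_int_iff, hr]
    apply hc
    have e : sg p.1 (sg p.1 c + p.2 - r.2) = c + sg p.1 (p.2 - r.2) := by
      unfold sg
      cases p.1
      · simp only [Bool.false_eq_true, if_false]; abel
      · simp only [if_true]; abel
    rw [e, dist_eq_norm, add_sub_cancel_left]
    have e2 : ‖sg p.1 (p.2 - r.2)‖ = dist p.2 r.2 := by
      rw [dist_eq_norm]
      unfold sg
      cases p.1
      · simp
      · simp only [if_true, norm_neg]
    rw [e2]; exact hd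
  exact h (hX p rfl (by rw [dist_self]; exact hρ)) (hX q h1.symm hcon)

theorem lim_ne {Kn : ℕ → Set V} {c : V} {ρ : ℝ} (hρ : 0 < ρ)
    (hc : ∀ n, ∀ y, dist y c < ρ → y ∈ interior (Kn n)) {S : ℕ → Set (Bool × V)}
    (hp : ∀ n, IsPack (Kn n) (S n)) {f g : ℕ → Bool × V} {p q : Bool × V}
    (hfS : ∀ᶠ n in (U : Filter ℕ), f n ∈ S n) (hgS : ∀ᶠ n in (U : Filter ℕ), g n ∈ S n)
    (hne : ∀ᶠ n in (U : Filter ℕ), f n ≠ g n) (hf : Tendsto f (U : Filter ℕ) (𝓝 p))
    (hg : Tendsto g (U : Filter ℕ) (𝓝 q)) : p ≠ q := by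
  rintro rfl
  have h1 : Tendsto (fun n => dist (f n).2 (g n).2) (U : Filter ℕ) (𝓝 (dist p.2 p.2)) :=
    (snd_lim hf).dist (snd_lim hg)
  rw [dist_self] at h1
  obtain ⟨n, n1, n2, n3, n4, n5, n6⟩ := (hfS.and (hgS.and (hne.and ((fst_ev hf).and
    ((fst_ev hg).and (h1.eventually_lt_const hρ)))))).exists
  exact absurd (sep hρ (hc n) (hp n) n1 n2 n3 (n4.trans n5.symm)) (not_le.2 n6)

theorem bl_compact (s : ℝ) : IsCompact (Bl s) := by
  have hcl : IsClosed (Bl s) := by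
    unfold Bl
    exact isClosed_le (by fun_prop) (by fun_prop)
  have hsub : Bl s ⊆ Metric.closedBall (0 : V) |s| := by
    have e : Bl s = Bl |s| := by
      ext x
      simp only [Bl, Set.mem_ofPred_eq, sq_abs]
    rw [e]
    exact bl_subset_ball _ (abs_nonneg s)
  exact (isCompact_closedBall (0 : V) |s|).of_isClosed_subset hcl hsub

theorem cball_compact (x : V) (s : ℝ) : IsCompact {y : V | y - x ∈ Bl s} := by
  have e : {y : V | y - x ∈ Bl s} = (fun y => y + x) '' Bl s := by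
    ext y
    constructor
    · intro h
      exact ⟨y - x, h, by simp⟩
    · rintro ⟨z, hz, rfl⟩
      show z + x - x ∈ Bl s
      rw [add_sub_cancel_right]; exact hz
  rw [e]
  exact (bl_compact s).image (continuous_id.add continuous_const)

theorem lim_big {Kn : ℕ → Set V} {c : V} {ρ : ℝ} (hρ : 0 < ρ)
    (hc : ∀ n, ∀ y, dist y c < ρ → y ∈ interior (Kn n)) {S : ℕ → Set (Bool × V)}
    (hp : ∀ n, IsPack (Kn n) (S n)) {m : ℕ} {x : V} {s : ℝ}
    (h : ∀ᶠ n in atTop, Big m (S n) x s) : Big m (Lim S) x s := by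
  classical
  have h' : ∀ᶠ n in (U : Filter ℕ), Big m (S n) x s := h.filter_mono U_le
  -- enumerations
  have hen : ∀ n, ∃ f : Fin m → Bool × V, Big m (S n) x s →
      Function.Injective f ∧ ∀ i, f i ∈ S n ∧ (f i).2 - x ∈ Bl s := by
    intro n
    by_cases hb : Big m (S n) x s
    · obtain ⟨F, h1, h2⟩ := hb
      obtain ⟨G, hG, hGc⟩ := Finset.exists_subset_card_eq h1
      refine ⟨fun i => ((Finset.equivFinOfCardEq hGc).symm i : Bool × V), fun _ => ⟨?_, ?_⟩⟩
      · intro i j hij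
        exact (Finset.equivFinOfCardEq hGc).symm.injective (Subtype.ext hij)
      · intro i
        exact h2 _ (hG ((Finset.equivFinOfCardEq hGc).symm i).2)
    · exact ⟨fun _ => (false, 0), fun hb' => absurd hb' hb⟩
  choose f hf using hen
  set C : Set (Bool × V) := Set.univ ×ˢ {y : V | y - x ∈ Bl s} with hC
  have hCc : IsCompact C := Set.finite_univ.isCompact.prod (cball_compact x s)
  have hlim : ∀ i, ∃ q ∈ C, Tendsto (fun n => f n i) (U : Filter ℕ) (𝓝 q) := by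
    intro i
    obtain ⟨q, hq, h1⟩ := hCc.ultrafilter_le_nhds (U.map fun n => f n i) (by
      rw [Ultrafilter.coe_map, Filter.le_principal_iff, Filter.mem_map]
      filter_upwards [h'] with n hn
      exact ⟨Set.mem_univ _, ((hf n hn).2 i).2⟩)
    exact ⟨q, hq, h1⟩
  choose q hqC hq using hlim
  have hmem : ∀ i, ∀ᶠ n in (U : Filter ℕ), f n i ∈ S n := by
    intro i
    filter_upwards [h'] with n hn
    exact ((hf n hn).2 i).1
  have hinj : Function.Injective q := by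
    intro i j hij
    by_contra hne
    refine lim_ne hρ hc hp (hmem i) (hmem j) ?_ (hq i) (hq j) hij
    filter_upwards [h'] with n hn
    exact fun e => hne ((hf n hn).1 e)
  refine ⟨Finset.univ.image q, ?_, ?_⟩
  · rw [Finset.card_image_of_injective _ hinj, Finset.card_univ, Fintype.card_fin]
  · intro p hp'
    obtain ⟨i, -, rfl⟩ := Finset.mem_image.1 hp'
    exact ⟨⟨fun n => f n i, hmem i, hq i⟩, (hqC i).2⟩

end Pool.Agent.V8H55.CT
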