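import Pool.Agent.V8H55.CT.Gap

/-!
# Contact points of local minimisers of the densities of non-lattice packings
-/

namespace Pool.Agent.V8H55.CT

open MeasureTheory Set Filter Topology
open scoped ENNReal
open Pool.Agent.H349R2.Tet (V Bl tr Ov bl_add bl_neg bl_measurable bl_subset_ball)
open Pool.Agent.TH219.DL
open Pool.Agent.V8H55.MD
open Pool.Agent.V8H55.CP
open Pool.Agent.V8H55.CS (Ow touchS dbd)

/-- the function `δ` is at the bodies inside `K` and close to `K` at least as large as at `K` -/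
def LocMinOf (δ : Set (Fin 3 → ℝ) → ℝ≥0∞) (K : Set (Fin 3 → ℝ)) : Prop :=
  ∃ η : ℝ, 0 < η ∧ ∀ K' : Set (Fin 3 → ℝ), Body K' → K' ⊆ K →
    (∀ y ∈ K, ∃ x ∈ K', dist x y < η) → δ K ≤ δ K'

theorem locMinOf_of_min {δ : Set (Fin 3 → ℝ) → ℝ≥0∞} {K : Set V} (h : δ K = mn δ) :
    LocMinOf δ K :=
  ⟨1, one_pos, fun K' hK' _ _ => by rw [h]; exact iInf₂_le K' hK'⟩

/-- the bodies inside `K` and close to `K` have at least the packing density of `K` -/
def LocMinX (σ : Set Bool) (K : Set (Fin 3 → ℝ)) : Prop := LocMinOf (dX σ) K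

theorem locMinX_false {K : Set V} (h : LocMinOf dT K) : LocMinX {false} K := h

theorem locMinX_univ {K : Set V} (h : LocMinOf dTs K) : LocMinX Set.univ K := by
  have e : dX Set.univ = dTs := funext dX_univ
  unfold LocMinX
  rw [e]; exact h

theorem ud_mv {σ : Set Bool} {K : Set V} (hK : Body K) {S : Set (Bool × V)} (h : UD σ K S)
    (w : V) : UD σ K (mv (false, w) '' S) := by
  refine ud_of hK ?_ (mv_pack _ h.2.1) ?_
  · rintro _ ⟨r, hr, rfl⟩
    have h1 := h.1 r hr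
    show xor r.1 false ∈ σ
    rw [Bool.xor_false]; exact h1
  · intro D hD hKD x r hr
    obtain ⟨x', rfl⟩ := mx_surj (false, w) x
    exact (big_of_ud hK h hD hKD x' hr).mv _

theorem exists_bl (x : V) : ∃ R : ℝ, 0 < R ∧ x ∈ Bl R := by
  obtain ⟨R, hR, h⟩ := body_bdd (isCompact_singleton (x := x))
  exact ⟨R, hR, h rfl⟩

/-- **exposed points of local minimisers are contact points** -/
theorem exposed_contactT {σ : Set Bool} (hσ : false ∈ σ) {K : Set V} (hK : Body K)
    (hmin : LocMinX σ K) {p v : V} (hp : p ∈ K) (hexp : ∀ y ∈ K, y ≠ p → ip v y < ip v p) :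
    ∃ (S : Set (Bool × V)) (q : Bool × V), UD σ K S ∧ (false, (0 : V)) ∈ S ∧ q ∈ S ∧
      q ≠ (false, 0) ∧ p ∈ mem K q ∧
      ∃ a d : V, ∀ x ∈ K, x ∈ mem K q → ∃ t : ℝ, x = a + t • d := by
  obtain ⟨η, hη, hloc⟩ := hmin
  obtain ⟨ε0, hε0, ⟨c, hc, hcv⟩, hnear⟩ := Kc_near hK hp hexp hη
  set e : ℕ → ℝ := fun n => ε0 / (n + 1) with he
  have hepos : ∀ n, 0 < e n := fun n => by simp only [he]; positivity
  have hele : ∀ n, e n ≤ ε0 := fun n => by
    simp only [he]
    rw [div_le_iff₀ (by positivity)]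
    nlinarith [(Nat.cast_nonneg n : (0 : ℝ) ≤ n)]
  have he0 : Tendsto e atTop (𝓝 0) := by
    have h1 := (tendsto_one_div_add_atTop_nhds_zero_nat (𝕜 := ℝ)).const_mul ε0
    rw [mul_zero] at h1
    refine h1.congr fun n => ?_
    simp only [he]
    ring
  have hbody : ∀ n, Body (Kc K v (ip v p - e n)) := fun n =>
    Kc_body hK ⟨c, hc, by linarith [hele n]⟩
  choose S q hSσ hSp hS0 hqS hq0 hov hbig using fun n : ℕ => moved hσ hK (hbody n)
    inter_subset_left (hloc _ (hbody n) inter_subset_left (hnear _ (hele n)))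
    (Kc_vol hK (hbody n) hp (by linarith [hepos n])) (n : ℝ)
  obtain ⟨ρ, hρ, hball⟩ : ∃ ρ : ℝ, 0 < ρ ∧ ∀ y, dist y c < ρ →
      y ∈ interior K ∧ ip v y < ip v p - ε0 := by
    have hop : IsOpen (interior K ∩ {y | ip v y < ip v p - ε0}) :=
      isOpen_interior.inter (isOpen_lt (ipc v) continuous_const)
    obtain ⟨ρ, hρ, h1⟩ := Metric.isOpen_iff.1 hop c ⟨hc, hcv⟩
    exact ⟨ρ, hρ, fun y hy => h1 hy⟩
  have hcn : ∀ n, ∀ y, dist y c < ρ → y ∈ interior (Kc K v (ip v p - e n)) := by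
    intro n y hy
    obtain ⟨h1, h2⟩ := hball y hy
    exact mem_int_Kc h1 (by linarith [hele n])
  have hint : ∀ x ∈ interior K, ∃ ε : ℝ, 0 < ε ∧ ∀ᶠ n in atTop, ∀ y, dist y x < ε →
      y ∈ interior (Kc K v (ip v p - e n)) := by
    intro x hx
    have hxv := int_lt hexp hx
    have hop : IsOpen (interior K ∩ {y | ip v y < (ip v x + ip v p) / 2}) :=
      isOpen_interior.inter (isOpen_lt (ipc v) continuous_const)
    obtain ⟨ε, hε, h1⟩ := Metric.isOpen_iff.1 hop x ⟨hx, (show ip v x < _ by linarith)⟩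
    refine ⟨ε, hε, ?_⟩
    have h2 : 0 < (ip v p - ip v x) / 2 := by linarith
    filter_upwards [he0.eventually_lt_const h2] with n hn y hy
    obtain ⟨h3, h4⟩ := h1 hy
    have h5 : ip v y < (ip v x + ip v p) / 2 := h4
    exact mem_int_Kc h3 (by linarith)
  obtain ⟨R, hR, hRu⟩ := dbd hK.1
  -- the limit along a subsequence
  have key : ∀ θ : ℕ → ℕ, Tendsto θ atTop atTop → ∀ w : Bool × V,
      Tendsto (fun n => q (θ n)) atTop (𝓝 w) →
      UD σ K (Lim fun n => S (θ n)) ∧ (false, (0 : V)) ∈ Lim (fun n => S (θ n)) ∧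
      w ∈ Lim (fun n => S (θ n)) ∧ w ≠ (false, 0) := by
    intro θ hθ w hw
    have h0 : Tendsto (fun _ : ℕ => ((false, 0) : Bool × V)) atTop (𝓝 (false, 0)) :=
      tendsto_const_nhds
    refine ⟨?_, ?_, ?_, ?_⟩
    · refine lim_ud hK hρ (Kn := fun n => Kc K v (ip v p - e (θ n))) (fun n => hcn _) ?_
        (fun n => hSσ _) (fun n => hSp _) ?_
      · intro x hx
        obtain ⟨ε, hε, h1⟩ := hint x hx
        exact ⟨ε, hε, hθ.eventually h1⟩
      · intro D hD hKD x r hr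
        obtain ⟨t, ht, hxt⟩ := exists_bl x
        filter_upwards [hθ.eventually (eventually_ge_atTop ⌈r + 2 * D + t⌉₊)] with n hn
        have hn' : r + 2 * D + t ≤ (θ n : ℝ) := (Nat.le_ceil _).trans (by exact_mod_cast hn)
        exact hbig (θ n) D hD hKD x r t hr ht.le hxt hn'
    · exact lim_mem (fun n => hS0 (θ n)) h0
    · exact lim_mem (fun n => hqS (θ n)) hw
    · refine lim_ne hρ (Kn := fun n => Kc K v (ip v p - e (θ n))) (fun n => hcn _)
        (fun n => hSp (θ n)) (Eventually.of_forall fun n => hqS (θ n))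
        (Eventually.of_forall fun n => hS0 (θ n)) (Eventually.of_forall fun n => hq0 (θ n))
        (hw.mono_left U_le) (h0.mono_left U_le)
  have hfr := Filter.frequently_or_distrib.1
    (Eventually.of_forall hov : ∀ᶠ n in atTop, _).frequently
  have hlimit : ∀ s : Bool, ∀ ψ : ℕ → ℕ, StrictMono ψ → (∀ n, (q (ψ n)).1 = s) →
      (∀ n, ‖(q (ψ n)).2‖ ≤ R) → ∃ (θ : ℕ → ℕ) (w : V), Tendsto θ atTop atTop ∧
        (∀ n, ∃ m, θ n = ψ m) ∧ Tendsto (fun n => (q (θ n)).2) atTop (𝓝 w) ∧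
        Tendsto (fun n => q (θ n)) atTop (𝓝 (s, w)) := by
    intro s ψ hψ h1 h2
    have hbd : Bornology.IsBounded (Set.range fun n => (q (ψ n)).2) := by
      rw [isBounded_iff_forall_norm_le]
      refine ⟨R, ?_⟩
      rintro _ ⟨n, rfl⟩
      exact h2 n
    obtain ⟨w, -, φ, hφ, hlim⟩ := tendsto_subseq_of_bounded hbd (fun n => Set.mem_range_self n)
    refine ⟨ψ ∘ φ, w, (hψ.comp hφ).tendsto_atTop, fun n => ⟨φ n, rfl⟩, hlim, ?_⟩
    have h3 : Tendsto (fun n => (s, (q (ψ (φ n))).2)) atTop (𝓝 (s, w)) :=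
      tendsto_const_nhds.prodMk_nhds hlim
    refine h3.congr fun n => ?_
    exact Prod.ext (h1 (φ n)).symm rfl
  rcases hfr with hfr | hfr
  · obtain ⟨ψ, hψ, h1⟩ := Filter.extraction_of_frequently_atTop hfr
    obtain ⟨θ, w, hθ, hθψ, hlim, hlimq⟩ := hlimit false ψ hψ (fun n => (h1 n).1) (fun n => by
      obtain ⟨x, hx, hxu⟩ := (h1 n).2
      have := (hRu x (interior_subset hx) _ (interior_subset hxu)).1
      rwa [sub_sub_cancel] at this)
    have hθ1 : ∀ n, (q (θ n)).1 = false ∧ Ov K (q (θ n)).2 := by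
      intro n
      obtain ⟨m, hm⟩ := hθψ n
      rw [hm]; exact h1 m
    obtain ⟨hud, h0, hw, hw0⟩ := key θ hθ _ hlimq
    have hnw : ¬ Ov K w := (disj_of (q := (false, w)) (hud.2.1 _ h0 _ hw hw0.symm)).1 rfl
    obtain ⟨h2, a, d, hline⟩ := touch (e := fun n => e (θ n)) (u := fun n => (q (θ n)).2) hK hp
      hexp (he0.comp hθ) hlim (fun n => (hθ1 n).2)
      (fun n => (disj_of (hSp (θ n) _ (hS0 _) _ (hqS _) (hq0 _).symm)).1 (hθ1 n).1) hnw
    rcases h2 with h2 | h2
    · refine ⟨_, (false, w), hud, h0, hw, hw0, ?_, a, d, fun x hx hxw => hline x hx ?_⟩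
      · rw [mem_iff, sg_false]; exact h2
      · rw [mem_iff, sg_false] at hxw; exact hxw
    · have e0 : mv (false, w) (false, (0 : V)) = (false, -w) := by
        unfold mv; simp [sg_false]
      refine ⟨_, (false, -w), ud_mv hK hud w, ⟨_, hw, mv_self _⟩, ⟨_, h0, e0⟩, ?_, ?_, a - w, d,
        fun x hx hxw => ?_⟩
      · intro h3
        apply hw0
        have h4 : -w = 0 := (Prod.mk.inj h3).2
        rw [neg_eq_zero.1 h4]
      · rw [mem_iff, sg_false, sub_neg_eq_add]; exact h2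
      · rw [mem_iff, sg_false, sub_neg_eq_add] at hxw
        obtain ⟨t, ht⟩ := hline (x + w) hxw (by rw [add_sub_cancel_right]; exact hx)
        refine ⟨t, ?_⟩
        have e1 : x = x + w - w := by abel
        rw [e1, ht]; abel
  · obtain ⟨ψ, hψ, h1⟩ := Filter.extraction_of_frequently_atTop hfr
    obtain ⟨θ, w, hθ, hθψ, hlim, hlimq⟩ := hlimit true ψ hψ (fun n => (h1 n).1) (fun n => by
      obtain ⟨x, hx, hxu⟩ := (h1 n).2
      have := (hRu x (interior_subset hx) _ (interior_subset hxu)).2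
      rwa [add_sub_cancel] at this)
    have hθ1 : ∀ n, (q (θ n)).1 = true ∧ Ow K (q (θ n)).2 := by
      intro n
      obtain ⟨m, hm⟩ := hθψ n
      rw [hm]; exact h1 m
    obtain ⟨hud, h0, hw, hw0⟩ := key θ hθ _ hlimq
    have hnw : ¬ Ow K w := (disj_of (q := (true, w)) (hud.2.1 _ h0 _ hw hw0.symm)).2 rfl
    obtain ⟨h2, a, d, hline⟩ := touchS (e := fun n => e (θ n)) (u := fun n => (q (θ n)).2) hK hp
      hexp (he0.comp hθ) hlim (fun n => (hθ1 n).2)
      (fun n => (disj_of (hSp (θ n) _ (hS0 _) _ (hqS _) (hq0 _).symm)).2 (hθ1 n).1) hnw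
    refine ⟨_, (true, w), hud, h0, hw, hw0, ?_, a, d, fun x hx hxw => hline x hx ?_⟩
    · rw [mem_iff, sg_true, neg_sub]; exact h2
    · rw [mem_iff, sg_true, neg_sub] at hxw; exact hxw

/-- the contact points of uniformly densest packings -/
def ConT (σ : Set Bool) (K : Set V) : Set V :=
  {p | p ∈ K ∧ ∃ (S : Set (Bool × V)) (q : Bool × V), UD σ K S ∧ (false, (0 : V)) ∈ S ∧ q ∈ S ∧
    q ≠ (false, 0) ∧ p ∈ mem K q}

theorem conT_closed (σ : Set Bool) {K : Set V} (hK : Body K) : IsClosed (ConT σ K) := by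
  apply isClosed_of_closure_subset
  intro p hp
  obtain ⟨x, hx, hlim⟩ := mem_closure_iff_seq_limit.1 hp
  have hpK : p ∈ K := hK.1.isClosed.mem_of_tendsto hlim (Eventually.of_forall fun n => (hx n).1)
  choose S q hud h0 hqS hq0 hxq using fun n => (hx n).2
  obtain ⟨c, hc⟩ := hK.2.2
  obtain ⟨ρ, hρ, hball⟩ := Metric.isOpen_iff.1 isOpen_interior c hc
  obtain ⟨D, hD, hKD⟩ := body_bdd hK.1
  -- the limit of the neighbours
  set C : Set (Bool × V) := Set.univ ×ˢ {y : V | y - 0 ∈ Bl (D + D)} with hC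
  have hCc : IsCompact C := Set.finite_univ.isCompact.prod (cball_compact 0 (D + D))
  have hqC : ∀ n, q n ∈ C := by
    intro n
    refine ⟨Set.mem_univ _, ?_⟩
    show (q n).2 - 0 ∈ Bl (D + D)
    have h1 := bl_add hD.le hD.le (hKD (hx n).1) (bl_neg (mem_bl hKD (hxq n)))
    have e : x n + -(x n - (q n).2) = (q n).2 - 0 := by abel
    rwa [e] at h1
  obtain ⟨q', -, hq'⟩ := hCc.ultrafilter_le_nhds (U.map q) (by
    rw [Ultrafilter.coe_map, Filter.le_principal_iff, Filter.mem_map]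
    exact Eventually.of_forall hqC)
  have hq'' : Tendsto q (U : Filter ℕ) (𝓝 q') := hq'
  have hcst : Tendsto (fun _ : ℕ => ((false, 0) : Bool × V)) atTop (𝓝 (false, 0)) :=
    tendsto_const_nhds
  refine ⟨hpK, Lim S, q', ?_, lim_mem h0 hcst, ⟨q, Eventually.of_forall hqS, hq''⟩, ?_, ?_⟩
  · exact lim_ud hK hρ (fun _ y hy => hball hy) (exh_const K) (fun n => (hud n).1)
      (fun n => (hud n).2.1) fun D hD hKD x r hr =>
        Eventually.of_forall fun n => big_of_ud hK (hud n) hD hKD x hr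
  · exact lim_ne hρ (fun _ y hy => hball hy) (fun n => (hud n).2.1) (Eventually.of_forall hqS)
      (Eventually.of_forall h0) (Eventually.of_forall hq0) hq'' (hcst.mono_left U_le)
  · rw [mem_iff]
    have hlimU : Tendsto x (U : Filter ℕ) (𝓝 p) := hlim.mono_left U_le
    have h1 : Tendsto (fun n => sg q'.1 (x n - (q n).2)) (U : Filter ℕ)
        (𝓝 (sg q'.1 (p - q'.2))) :=
      ((sg_cont q'.1).tendsto _).comp (hlimU.sub (snd_lim hq''))
    refine hK.1.isClosed.mem_of_tendsto h1 ?_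
    filter_upwards [fst_ev hq''] with n hn
    rw [← hn]
    exact (mem_iff K (q n) (x n)).1 (hxq n)

/-- **extreme points of local minimisers are contact points** -/
theorem extreme_contactT {σ : Set Bool} (hσ : false ∈ σ) {K : Set V} (hK : Body K)
    (hmin : LocMinX σ K) {p : V} (hp : p ∈ K.extremePoints ℝ) : p ∈ ConT σ K := by
  have h1 : Expo K ⊆ ConT σ K := by
    rintro r ⟨hr, v, hv⟩
    obtain ⟨S, q, h1, h2, h3, h4, h5, -⟩ := exposed_contactT hσ hK hmin hr hv
    exact ⟨hr, S, q, h1, h2, h3, h4, h5⟩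
  have h2 : IsCompact (ConT σ K) :=
    hK.1.of_isClosed_subset (conT_closed σ hK) fun q hq => hq.1
  have h3 := Pool.Agent.TH276.Torsion.isCompact_convexHull_of_isCompact h2
  have h4 : K ⊆ convexHull ℝ (ConT σ K) :=
    (sub_hull_expo hK.1).trans (closure_minimal (convexHull_mono h1) h3.isClosed)
  have h5 : convexHull ℝ (ConT σ K) = K :=
    Set.Subset.antisymm (convexHull_min (fun q hq => hq.1) hK.2.1) h4
  rw [← h5] at hp
  exact extremePoints_convexHull_subset hp

end Pool.Agent.V8H55.CT
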